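import Mathlib
import Pool.Agent.H29.Tdc

namespace Pool.Agent.Results.MP_d54b08_al.VirtAb

open Filter

/-- The ball of radius `n` for the word length with respect to `X ∪ X⁻¹`. -/
def ball {G : Type} [Group G] (X : Finset G) (n : ℕ) : Set G :=
  {g | ∃ l : List G, l.length ≤ n ∧ (∀ x ∈ l, x ∈ X ∨ x⁻¹ ∈ X) ∧ l.prod = g}

/-- The degree of twisted commutativity. -/
noncomputable def tdc {G : Type} [Group G] (X : Finset G) (φ : G →* G) : ℝ :=
  limsup (fun n : ℕ => ({p : G × G | p.1 ∈ ball X n ∧ p.2 ∈ ball X n ∧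
    p.1 * p.2 = p.2 * φ p.1}.ncard : ℝ) / ((ball X n).ncard : ℝ) ^ 2) atTop

theorem result (G : Type) [Group G] (X Y : Finset G) (hX : Subgroup.closure (X : Set G) = ⊤)
    (hY : Subgroup.closure (Y : Set G) = ⊤) (H : Subgroup G) (hH : H.FiniteIndex)
    (hc : ∀ a ∈ H, ∀ b ∈ H, a * b = b * a) (φ : G →* G) : tdc X φ = tdc Y φ :=
  (Pool.Agent.H29.Tdc.main X hX H hH hc φ).trans (Pool.Agent.H29.Tdc.main Y hY H hH hc φ).symm

end Pool.Agent.Results.MP_d54b08_al.VirtAb
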